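import Pool.Agent.J6H10.GE.E6

/-!
# The Good-Churchhouse conjecture at the edge `H = X / T` and Gonek's conjecture

`V(X; H) = (1/X) ∫_X^{2X} M(x; H)² dx` is the variance of the problem. For `T ≥ 2` let
`mean T z = (1 / log z) ∫_1^z (V(X; X/T) / (X/T)) dX / X` be the logarithmic mean, over the scales `X ≤ z`, of the
quotient `V(X; H) / H` at `H = X / T`.

1. `mean T z` has a limit in `[0, ∞]` as `z → ∞`, for every `T ≥ 2`: if the Riemann hypothesis holds, all nontrivial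
   zeros are simple and `∑_ρ |ρ ζ'(ρ)|^{-2} < ∞`, it is `∑_ρ weight T ρ / |ρ ζ'(ρ)|²` with
   `weight T ρ = T ∫_1^2 |(u + 1/(2T))^ρ - (u - 1/(2T))^ρ|² du`; in all other cases it is `+∞`.
2. If for one `T ≥ 8` we have `mean T z ≤ C` for a sequence of `z → ∞`, then the Riemann hypothesis holds, all zeros
   are simple and `J(T/8) ≤ 16 C T`, `J(T) = ∑_{0 < γ ≤ T} |ζ'(ρ)|^{-2}`.
3. For `δ > 0`: RH, simple zeros and `J(T) ≪ T^(2-δ)` hold if and only if `limsup_z mean T z ≪ T^(1-δ)`.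
   For `δ = 1`: the hypotheses `J_{-1}(T) ≪ T` of Ng's theorem are equivalent to the upper bound of the
   Good-Churchhouse conjecture in the mean, at the edge.
4. For real `A`: RH, simple zeros and `J(T) ∼ A T` hold if and only if `mean T z → 2 π A`, first `z → ∞`, then
   `T → ∞`. For `A = 3/π³` (Gonek's conjecture) this is `1/ζ(2) = 6/π²`, the constant of the conjecture.
5. If the Good-Churchhouse asymptotics `V(X; H) ∼ H / ζ(2)` hold for every `H = H(X)` with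
   `X^(1-δ) ≤ H = o(X)`, for one `δ > 0`, then RH holds, all zeros are simple, and Gonek's conjecture
   `J_{-1}(T) ∼ 3 T / π³` is true.

Proof. `V(X; X/T)/(X/T)`, integrated against `dX / X`, is exactly an average over `v ∈ [1 - 1/(2T), 2 - 1/(2T)]` of the
mean squares `∫ ((M((1+κ)u) - M(u))/u)² du` with the fixed ratio `κ = 1/(Tv)`, whose asymptotics are in
the library of `MP_323ce2_nt.IncrementsAndNegativeMoment`; divergence of the average is proved from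
the uniformity of the lower bounds. This gives 1-3. For 4, the limit is a dyadic mean of a function `Φ` with
`Φ(1/κ) = V₀(κ)/κ`; the dyadic mean is inverted, and a slow oscillation
`V₀(κ) ≤ (1+η) V₀(κ') + (1+1/η) K (κ-κ')` recovers the limit of `Φ`, to which the Tauberian theorem of that library
applies. For 5 we diagonalise.
-/

set_option autoImplicit false

open MeasureTheory Filter Topology Set

namespace Pool.Agent.Results.MP_0575cc_nt.EdgeAsymptotics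

/-- `M(x; H)`, the sum of `μ(n)` over the `n ≥ 1` with `|n - x| < H / 2` (the term `n = 0` is `0`) -/
noncomputable def M (x H : ℝ) : ℝ :=
  ∑ n ∈ (Finset.range (⌈x + H⌉₊ + 1)).filter (fun n : ℕ => |(n : ℝ) - x| < H / 2),
    ((ArithmeticFunction.moebius n : ℤ) : ℝ)

/-- `V(X; H)`, the mean of `M(x; H)²` over `X ≤ x ≤ 2X` -/
noncomputable def V (X H : ℝ) : ℝ := (1 / X) * ∫ x in X..2 * X, M x H ^ 2

/-- The logarithmic mean over the scales `X ≤ z` of `V(X; H) / H` at `H = X / T`. -/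
noncomputable def mean (T z : ℝ) : ℝ := (∫ X in (1 : ℝ)..z, V X (X / T) / (X / T) / X) / Real.log z

/-- The nontrivial zeros of the Riemann zeta function. -/
def NT : Set ℂ := {s : ℂ | riemannZeta s = 0 ∧ 0 < s.re ∧ s.re < 1}

/-- The Riemann hypothesis and the simplicity of all nontrivial zeros. -/
def RHSimple : Prop := ∀ ρ ∈ NT, ρ.re = 1 / 2 ∧ deriv riemannZeta ρ ≠ 0

/-- RH, simple zeros, and `∑_ρ |ρ ζ'(ρ)|^{-2} < ∞`. -/
def ZeroCondition : Prop :=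
  RHSimple ∧ Summable (fun ρ : NT => 1 / ‖(ρ : ℂ) * deriv riemannZeta ρ‖ ^ 2)

/-- `T ∫_1^2 |(u + 1/(2T))^ρ - (u - 1/(2T))^ρ|² du` -/
noncomputable def weight (T : ℝ) (ρ : ℂ) : ℝ :=
  T * ∫ u in (1 : ℝ)..2, ‖((u + 1 / (2 * T) : ℝ) : ℂ) ^ ρ - ((u - 1 / (2 * T) : ℝ) : ℂ) ^ ρ‖ ^ 2

/-- The nontrivial zeros with ordinate in `(0, T]`. -/
def Z (T : ℝ) : Set ℂ := {ρ : ℂ | riemannZeta ρ = 0 ∧ 0 < ρ.re ∧ ρ.re < 1 ∧ 0 < ρ.im ∧ ρ.im ≤ T}

/-- The negative moment `J_{-1}(T) = ∑_{0 < γ ≤ T} 1/|ζ'(ρ)|²`. -/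
noncomputable def J (T : ℝ) : ℝ := ∑ᶠ ρ ∈ Z T, 1 / ‖deriv riemannZeta ρ‖ ^ 2

theorem result :
    (∀ T : ℝ, (Z T).Finite) ∧
    (∀ T : ℝ, 2 ≤ T →
      (ZeroCondition → Summable (fun ρ : NT => weight T ρ / ‖(ρ : ℂ) * deriv riemannZeta ρ‖ ^ 2) ∧
        Tendsto (mean T) atTop (𝓝 (∑' ρ : NT, weight T ρ / ‖(ρ : ℂ) * deriv riemannZeta ρ‖ ^ 2))) ∧
      (¬ ZeroCondition → Tendsto (mean T) atTop atTop)) ∧
    (∀ T C : ℝ, 8 ≤ T → (∃ᶠ z : ℝ in atTop, mean T z ≤ C) → RHSimple ∧ J (T / 8) ≤ 16 * C * T) ∧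
    (∀ δ : ℝ, 0 < δ →
      ((RHSimple ∧ ∃ C : ℝ, ∀ T : ℝ, 1 ≤ T → J T ≤ C * T ^ (2 - δ)) ↔
        ∃ C : ℝ, ∀ T : ℝ, 2 ≤ T → ∀ᶠ z : ℝ in atTop, mean T z ≤ C * T ^ (1 - δ))) ∧
    (∀ A : ℝ,
      ((RHSimple ∧ Tendsto (fun T : ℝ => J T / T) atTop (𝓝 A)) ↔
        ∀ ε : ℝ, 0 < ε → ∃ T₀ : ℝ, ∀ T : ℝ, T₀ ≤ T → ∀ᶠ z : ℝ in atTop,
          |mean T z - 2 * Real.pi * A| ≤ ε)) ∧
    (∀ δ : ℝ, 0 < δ →
      (∀ H : ℝ → ℝ, (∀ᶠ X : ℝ in atTop, X ^ (1 - δ) ≤ H X) → Tendsto (fun X => H X / X) atTop (𝓝 0) →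
        Tendsto (fun X => V X (H X) / H X) atTop (𝓝 (6 / Real.pi ^ 2))) →
      RHSimple ∧ Tendsto (fun T : ℝ => J T / T) atTop (𝓝 (3 / Real.pi ^ 3))) := by
  have hM : ∀ T z : ℝ, mean T z = Pool.Agent.J6H10.GE.QQ T z / Real.log z := fun T z => rfl
  refine ⟨Pool.Agent.J6H39.IC.Z_fin, fun T hT => ⟨fun h => ?_, fun h => ?_⟩, fun T C hT h => ?_,
    fun δ hδ => ?_, fun A => ?_, fun δ hδ h => ?_⟩
  · have h1 := Pool.Agent.J6H10.GE.Lam_sum h hT
    have h2 := Pool.Agent.J6H10.GE.mean_lim h hT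
    rw [← h1.tsum_eq] at h2
    exact ⟨h1.summable, h2⟩
  · exact Pool.Agent.J6H10.GE.mean_top h hT
  · exact Pool.Agent.J6H10.GE.J_of_freq hT h
  · exact Pool.Agent.J6H10.GE.power_iff hδ
  · exact Pool.Agent.J6H10.GE.edge_asym A
  · refine Pool.Agent.J6H10.GE.gonek_of_range (A := 3 / Real.pi ^ 3) hδ fun H h1 h2 => ?_
    have e : 2 * Real.pi * (3 / Real.pi ^ 3) = 6 / Real.pi ^ 2 := by
      have := Real.pi_ne_zero
      field_simp
      norm_num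
    rw [e]
    exact h H h1 h2

end Pool.Agent.Results.MP_0575cc_nt.EdgeAsymptotics
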