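import Pool.Agent.J6H10.GI.Z5

/-!
# The Good-Churchhouse conjecture inside its range and `1/ζ` at the distance `a / log T`

`V(X; H) = (1/X) ∫_X^{2X} M(x; H)² dx` is the variance of the problem. For `T ≥ 2` let
`mean T z = (1 / log z) ∫_1^z (V(X; X/T) / (X/T)) dX / X` be the logarithmic mean, over the scales `X ≤ z`, of the
quotient `V(X; H) / H` at `H = X / T`. For `z = T^c` and `X = z = T^c` we have `H = X^(1 - 1/c)`: for `c > 1` these are
the lengths of the conjecture. `moment δ T = ∫_0^T |ζ(1/2 + δ + it)|^{-2} dt`.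

1. (The bounds.) `mean T z ≤ C` for all `T, z ≥ 2`, for some `C`, if and only if the Riemann hypothesis holds and
   `moment δ T ≤ C T / δ` for all `0 < δ ≤ 1`, `T ≥ 1`, for some `C`.
2. (The asymptotics.) Suppose these bounds hold. Then, for every real `γ`, the following are equivalent:
   `mean T (T^c) → γ` as `T → ∞`, for every fixed `c > 0`;
   `(δ/T) moment δ T → γ/2` as `T → ∞`, uniformly for `a ≤ δ log T ≤ b`, for all fixed `0 < a ≤ b`.
3. If `V(X; H) ≤ C H` for all `X ≥ 1` and `0 < H ≤ X/2`, and the Good-Churchhouse conjecture Q1 is true, then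
   all this holds, with `γ = 6/π²`: so the Riemann hypothesis holds and `moment δ T ∼ 3 T / (π² δ)`
   uniformly for `a ≤ δ log T ≤ b`, which is the prediction of the ratios conjecture of Conrey, Farmer and Zirnbauer.

So, in the mean over the scales, the conjecture is equivalent to the asymptotic formula for the second moment of
`1/ζ` at the distances `δ ≍ 1 / log T` from the critical line. This is the analogue for `μ` of the theorem of
Goldston, Gonek and Montgomery on primes in short intervals and `ζ'/ζ` at these distances. The edge `H = X/T` with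
`T` fixed and `T → ∞` afterwards (`EdgeAsymptotics`) is the limit `c → ∞`, `a → 0`.

Proof. Plancherel's formula for `M(e^(u+τ)) - M(e^u)` on the line `1/2 + δ` turns the transform
`4 δ² ∫_1^∞ z^(-2δ-1) (log z) (mean T z) dz` into a dyadic mean of the function
`Φ(δ, r) = (2/π) r ∫_0^∞ |(e^(τs) - 1)/s|² δ |ζ(s)|^{-2} dt`, `τ = log (1 + 1/r)`, `s = 1/2 + δ + it`, up to `O(δ)`.
A Tauberian theorem of Karamata's type for families, uniform in `T`, inverts the transform at `δ = a / log T`; the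
dyadic mean is inverted with the slow oscillation of `Φ`; and the kernel average `Φ` is inverted with
Fourier analysis: the functions `1 - cos (2πxξ)` generate all even test functions, as `∫_0^∞ (1 - cos x)/x² dx = π/2`.
For 3 the windows with `H ≤ 1` are computed (squarefree numbers) and the scales with `X^0 < H < X^ε` are negligible.
-/

set_option autoImplicit false

open MeasureTheory Filter Topology Set

namespace Pool.Agent.Results.MP_0575cc_nt.InteriorAsymptotics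

/-- `M(x; H)`, the sum of `μ(n)` over the `n ≥ 1` with `|n - x| < H / 2` (the term `n = 0` is `0`) -/
noncomputable def M (x H : ℝ) : ℝ :=
  ∑ n ∈ (Finset.range (⌈x + H⌉₊ + 1)).filter (fun n : ℕ => |(n : ℝ) - x| < H / 2),
    ((ArithmeticFunction.moebius n : ℤ) : ℝ)

/-- `V(X; H)`, the mean of `M(x; H)²` over `X ≤ x ≤ 2X` -/
noncomputable def V (X H : ℝ) : ℝ := (1 / X) * ∫ x in X..2 * X, M x H ^ 2

/-- The logarithmic mean over the scales `X ≤ z` of `V(X; H) / H` at `H = X / T`. -/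
noncomputable def mean (T z : ℝ) : ℝ := (∫ X in (1 : ℝ)..z, V X (X / T) / (X / T) / X) / Real.log z

/-- `∫_0^T |ζ(1/2 + δ + it)|^{-2} dt` -/
noncomputable def moment (δ T : ℝ) : ℝ :=
  ∫ t in (0 : ℝ)..T, 1 / ‖riemannZeta (((1 / 2 + δ : ℝ) : ℂ) + t * Complex.I)‖ ^ 2

/-- the mean is bounded -/
def MeanBound : Prop := ∃ C : ℝ, ∀ T z : ℝ, 2 ≤ T → 2 ≤ z → mean T z ≤ C

/-- `moment δ T ≪ T / δ` -/
def MomentBound : Prop := ∃ C : ℝ, ∀ δ T : ℝ, 0 < δ → δ ≤ 1 → 1 ≤ T → moment δ T ≤ C * T / δ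

/-- `mean T (T^c) → γ` as `T → ∞`, for every `c > 0` -/
def MeanLimit (γ : ℝ) : Prop := ∀ c : ℝ, 0 < c → Tendsto (fun T : ℝ => mean T (T ^ c)) atTop (𝓝 γ)

/-- `(δ/T) moment δ T → γ/2` as `T → ∞`, uniformly for `a ≤ δ log T ≤ b`, for all `0 < a ≤ b` -/
def MomentLimit (γ : ℝ) : Prop := ∀ a b : ℝ, 0 < a → a ≤ b → ∀ ε : ℝ, 0 < ε → ∃ T₀ : ℝ, ∀ δ T : ℝ, T₀ ≤ T →
  a ≤ δ * Real.log T → δ * Real.log T ≤ b → |δ / T * moment δ T - γ / 2| ≤ ε

/-- the statement Q1 -/
def GoodChurchhouse : Prop := ∀ ε : ℝ, 0 < ε → ∀ H : ℝ → ℝ,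
  (∀ᶠ X : ℝ in atTop, X ^ ε < H X ∧ H X < X ^ (1 - ε)) →
    Tendsto (fun X => V X (H X) / H X) atTop (𝓝 (6 / Real.pi ^ 2))

theorem result :
    (MeanBound ↔ RiemannHypothesis ∧ MomentBound) ∧
    (MeanBound → ∀ γ : ℝ, MeanLimit γ ↔ MomentLimit γ) ∧
    ((∃ C : ℝ, ∀ X H : ℝ, 1 ≤ X → 0 < H → H ≤ X / 2 → V X H ≤ C * H) → GoodChurchhouse →
      RiemannHypothesis ∧ MomentBound ∧ MeanLimit (6 / Real.pi ^ 2) ∧ MomentLimit (6 / Real.pi ^ 2)) := by
  have hb : MeanBound ↔ RiemannHypothesis ∧ MomentBound := by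
    have h1 : MeanBound ↔ _ := Pool.Agent.J6H10.GI.bound_iff.trans
      (Pool.Agent.J6H10.GI.bounds_iff Pool.Agent.J6H10.GI.hPB)
    rw [h1, Pool.Agent.W190.rh_free]
    exact and_congr_right fun hf => Pool.Agent.J6H10.GI.Wgt_iff (Pool.Agent.J6H10.GC.Zs_free hf)
  have hm : ∀ γ : ℝ, (MeanBound ∧ MeanLimit γ) ↔ (RiemannHypothesis ∧ MomentBound ∧ MomentLimit γ) :=
    fun γ => Pool.Agent.J6H10.GI.main γ
  refine ⟨hb, fun h γ => ⟨fun h1 => ((hm γ).1 ⟨h, h1⟩).2.2, fun h1 => ?_⟩, ?_⟩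
  · obtain ⟨h2, h3⟩ := hb.1 h
    exact ((hm γ).2 ⟨h2, h3, h1⟩).2
  · rintro ⟨C, hC⟩ hQ
    have h1 : MeanBound ∧ MeanLimit (6 / Real.pi ^ 2) := Pool.Agent.J6H10.GI.of_conj hC hQ
    obtain ⟨h2, h3, h4⟩ := (hm _).1 h1
    exact ⟨h2, h3, h1.2, h4⟩

end Pool.Agent.Results.MP_0575cc_nt.InteriorAsymptotics
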