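import Pool.Agent.J6H10.GC.B5
import Pool.Agent.W190.A17

/-!
# The mean of the Good-Churchhouse variance over the scales and the second moment of `1/ζ`

`M(x; H)` is the sum of `μ(n)` over `|n - x| < H/2`, `V(X; H) = (1/X) ∫_X^{2X} M(x; H)² dx`; the
conjecture says `V(X; H) ∼ H / ζ(2)`. For `T ≥ 16` put

`W(T, z) = ∫_1^z ∫_{X/(16T)}^{4X/T} (V(X; H) / H) (dH / H) (dX / X)`,

the mean of `V(X; H) / H` over the scales `1 ≤ X ≤ z` and `H ≈ X / T`, times `log 64 · log z`.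

1. For every `T ≥ 16` and `C ≥ 0`: if `W(T, z) ≤ C (1 + log z)` for all `z ≥ 1`, then the Riemann
   hypothesis holds and `∫_{-T}^{T} |ζ(1/2+δ+it)|^{-2} dt ≤ 40000000 (C + 1) T / δ` for all `0 < δ ≤ 1`.
2. There is a `C` with `W(T, z) ≤ C (1 + log z)` for all `T ≥ 16`, `z ≥ 1` (the upper bound of the
   conjectured order in the mean over the scales) IF AND ONLY IF the Riemann hypothesis holds and there
   is a `C` with `∫_{-T}^{T} |ζ(1/2+δ+it)|^{-2} dt ≤ C T / δ` for all `T ≥ 1`, `0 < δ ≤ 1`.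
3. Both are true if `V(X; H) ≤ C H` for all `X ≥ 1` and `0 < H ≤ X / 4`.

This is the analogue for `μ` and `1/ζ`, for upper bounds of the right order, of the equivalence of
Goldston, Gonek and Montgomery between primes in short intervals and the second moment of `ζ'/ζ`.

Proof: Plancherel's formula for `M(e^(u+τ)) - M(e^u)` on the line `1/2 + δ`; Tonelli's theorem passes
from the growth of the integrals to the weight `e^(-2δu)`, and from the moments over `|t| ≤ R` to the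
weight `min(τ, 1/|t|)²`; the Saffari-Vaughan argument of the starting files (`K1H70/GC`) in one
direction and a converse one (`J6H10/GC/L3.lean`, `B4.lean`), integrated over the scales, in the other.
The Riemann hypothesis is deduced from the mean square of `M` itself by the theorem of the starting
library on the weak Mertens hypothesis (`H295R2/WM7.lean`).
-/

set_option autoImplicit false

open MeasureTheory Filter Topology Set

namespace Pool.Agent.Results.MP_0575cc_nt.SecondMomentEquivalence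

/-- `M(x; H)`, the sum of `μ(n)` over the `n ≥ 1` with `|n - x| < H / 2` (the term `n = 0` is `0`) -/
noncomputable def M (x H : ℝ) : ℝ :=
  ∑ n ∈ (Finset.range (⌈x + H⌉₊ + 1)).filter (fun n : ℕ => |(n : ℝ) - x| < H / 2),
    ((ArithmeticFunction.moebius n : ℤ) : ℝ)

/-- `V(X; H)`, the mean of `M(x; H)²` over `X ≤ x ≤ 2X` -/
noncomputable def V (X H : ℝ) : ℝ := (1 / X) * ∫ x in X..2 * X, M x H ^ 2

/-- `W(T, z)` -/
noncomputable def W (T z : ℝ) : ℝ :=
  ∫ X in (1 : ℝ)..z, (∫ H in (X / (16 * T))..(4 * X / T), V X H / H / H) / X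

/-- `∫_{-T}^{T} |ζ(1/2+δ+it)|^{-2} dt` -/
noncomputable def moment (δ T : ℝ) : ℝ :=
  ∫ t in (-T)..T, 1 / ‖riemannZeta (((1 / 2 + δ : ℝ) : ℂ) + t * Complex.I)‖ ^ 2

lemma W_eq (T z : ℝ) : W T z = ∫ X in (1 : ℝ)..z, Pool.Agent.K1H70.GC.JV T X := by
  unfold W
  congr 1
  funext X
  unfold Pool.Agent.K1H70.GC.JV
  congr 2
  funext H
  rw [div_div, ← sq]
  rfl

theorem part1 (T C : ℝ) (hT : 16 ≤ T) (hC : 0 ≤ C) (h : ∀ z : ℝ, 1 ≤ z → W T z ≤ C * (1 + Real.log z)) :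
    RiemannHypothesis ∧ ∀ δ : ℝ, 0 < δ → δ ≤ 1 → moment δ T ≤ 40000000 * (C + 1) * T / δ := by
  have hT0 : 0 < T := by linarith
  have hpi := Real.pi_pos
  have hpi2 := Real.pi_lt_d2
  simp_rw [W_eq] at h
  obtain ⟨h1, h2⟩ := Pool.Agent.J6H10.GC.moment_of_mean hT hC h
  refine ⟨Pool.Agent.W190.rh_free.2 h1, fun δ hδ hδ1 => ?_⟩
  have h3 := Pool.Agent.J6H10.GC.mom2_eq (δ := δ) (T := T) (Pool.Agent.J6H10.GC.Zs_free h1) hδ hT0.le
  have h4 : ENNReal.ofReal (moment δ T) ≤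
      ENNReal.ofReal (2 * Real.pi * (5120 * (1152 * C + 2) * T / δ)) := by
    rw [ENNReal.ofReal_mul (by positivity : (0 : ℝ) ≤ 2 * Real.pi)]
    exact h3.le.trans (mul_le_mul' le_rfl (h2 δ hδ hδ1))
  rw [ENNReal.ofReal_le_ofReal_iff (by positivity)] at h4
  refine h4.trans ?_
  rw [← mul_div_assoc]
  apply div_le_div_of_nonneg_right _ hδ.le
  calc 2 * Real.pi * (5120 * (1152 * C + 2) * T)
      ≤ 2 * 3.15 * (5120 * (1152 * (C + 1)) * T) := by
        have : 1152 * C + 2 ≤ 1152 * (C + 1) := by linarith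
        gcongr
    _ ≤ 40000000 * (C + 1) * T := by nlinarith [mul_nonneg hC hT0.le]

theorem part2 :
    (∃ C : ℝ, ∀ T z : ℝ, 16 ≤ T → 1 ≤ z → W T z ≤ C * (1 + Real.log z)) ↔
    (RiemannHypothesis ∧ ∃ C : ℝ, ∀ T δ : ℝ, 1 ≤ T → 0 < δ → δ ≤ 1 → moment δ T ≤ C * T / δ) := by
  simp_rw [W_eq]
  rw [Pool.Agent.W190.rh_free]
  exact Pool.Agent.J6H10.GC.equiv

theorem result :
    (∀ T C : ℝ, 16 ≤ T → 0 ≤ C → (∀ z : ℝ, 1 ≤ z → W T z ≤ C * (1 + Real.log z)) →
      RiemannHypothesis ∧ ∀ δ : ℝ, 0 < δ → δ ≤ 1 → moment δ T ≤ 40000000 * (C + 1) * T / δ) ∧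
    ((∃ C : ℝ, ∀ T z : ℝ, 16 ≤ T → 1 ≤ z → W T z ≤ C * (1 + Real.log z)) ↔
      (RiemannHypothesis ∧ ∃ C : ℝ, ∀ T δ : ℝ, 1 ≤ T → 0 < δ → δ ≤ 1 → moment δ T ≤ C * T / δ)) ∧
    ((∃ C : ℝ, ∀ X H : ℝ, 1 ≤ X → 0 < H → H ≤ X / 4 → V X H ≤ C * H) →
      RiemannHypothesis ∧ ∃ C : ℝ, ∀ T δ : ℝ, 1 ≤ T → 0 < δ → δ ≤ 1 → moment δ T ≤ C * T / δ) := by
  refine ⟨part1, part2, ?_⟩
  rintro ⟨C, hC⟩
  refine part2.1 ⟨|C| * Real.log 64, fun T z hT hz => ?_⟩
  have hT0 : 0 < T := by linarith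
  rw [W_eq]
  refine (Pool.Agent.J6H10.GC.mean_of_uniform hT hz (abs_nonneg C) fun X H hX h1 h2 => ?_).trans ?_
  · have hX0 : 0 < X := by linarith
    have hH : 0 < H := lt_of_lt_of_le (by positivity) h1
    have hH4 : H ≤ X / 4 := by
      refine h2.trans ?_
      rw [div_le_div_iff₀ hT0 (by norm_num)]
      nlinarith
    exact (hC X H hX hH hH4).trans (mul_le_mul_of_nonneg_right (le_abs_self C) hH.le)
  · have h1 := Real.log_nonneg (by norm_num : (1 : ℝ) ≤ 64)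
    have h2 := Real.log_nonneg hz
    have : 0 ≤ |C| * Real.log 64 := by positivity
    nlinarith

end Pool.Agent.Results.MP_0575cc_nt.SecondMomentEquivalence
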