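import Pool.Agent.J6H10.GC.L4

/-!
# The Good-Churchhouse bound up to `X^ε`, on sparse sets of scales, and the Riemann hypothesis

`M(x; H)` is the sum of `μ(n)` over `|n - x| < H/2`, `V(X; H) = (1/X) ∫_X^{2X} M(x; H)² dx`,
`A(X; H) = (1/X) ∫_X^{2X} |M(x; H)| dx`, so that `A² ≤ V`.

1. If `ζ` has a zero with real part `> θ ≥ 1/2`, then for every `δ > 0`, for ALL large `X` and all
   `0 < H ≤ X^(1-δ)`: `A(X; H) ≥ H X^(θ-1)`, hence `V(X; H) ≥ H² X^(2θ-2)`.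
2. For `1/2 ≤ Θ ≤ 1` the following are equivalent:
   (a) `ζ` has no zeros with real part `> Θ`;
   (b) for every `ε > 0` there is a `C` with `V(X; H) ≤ C H X^(2Θ-1+ε)` for all `1 ≤ H ≤ X`;
   (c) for every `0 < δ < 1` there are arbitrarily large `X` and `X^(1-δ) ≤ H ≤ X^(1-δ/2)` with
   `V(X; H) ≤ H X^(2Θ-1+δ)`;
   (d) the same with the weaker `A(X; H)² ≤ H X^(2Θ-1+δ)`.
3. For `Θ = 1/2`: the Riemann hypothesis holds if and only if `V(X; H) ≤ C(ε) H X^ε` for all `1 ≤ H ≤ X`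
   (the upper bound of the Good-Churchhouse conjecture up to `X^ε`), if and only if this is true for an
   arbitrarily sparse set of `X`, for one `H` near `X^(1-δ)`, and in the `L¹` mean only.
4. If `Θ > 1/2` is the supremum of the real parts of the zeros, then for every `0 < δ < 1`, for all
   large `X` and all `X^(1-δ) ≤ H ≤ X^(1-δ/2)`: `X^(2Θ-3δ) ≤ V(X; H) ≤ X^(2Θ)`; so the conjecture then
   fails at every large scale.

Part 1 is the theorem `mu_DF` of the starting library (`R303/SW/Mo.lean`), which had not been handed in, and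
Cauchy-Schwarz. New is the upper bound (b): Plancherel's formula for `M(e^(u+τ)) - M(e^u)` in the
half plane, the bound `1/ζ(s) ≪ |t|^ε` of the starting library, and a converse Saffari-Vaughan argument
from differences at a fixed ratio to differences at a fixed distance.
-/

set_option autoImplicit false

open MeasureTheory Filter Topology Set

namespace Pool.Agent.Results.MP_0575cc_nt.SparseScalesRH

/-- `M(x; H)`, the sum of `μ(n)` over the `n ≥ 1` with `|n - x| < H / 2` (the term `n = 0` is `0`) -/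
noncomputable def M (x H : ℝ) : ℝ :=
  ∑ n ∈ (Finset.range (⌈x + H⌉₊ + 1)).filter (fun n : ℕ => |(n : ℝ) - x| < H / 2),
    ((ArithmeticFunction.moebius n : ℤ) : ℝ)

/-- `V(X; H)`, the mean of `M(x; H)²` over `X ≤ x ≤ 2X` -/
noncomputable def V (X H : ℝ) : ℝ := (1 / X) * ∫ x in X..2 * X, M x H ^ 2

/-- `A(X; H)`, the mean of `|M(x; H)|` over `X ≤ x ≤ 2X` -/
noncomputable def A (X H : ℝ) : ℝ := (1 / X) * ∫ x in X..2 * X, |M x H|

/-- `ζ` has no zeros with real part greater than `Θ`. -/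
def ZeroFree (Θ : ℝ) : Prop := ∀ s : ℂ, Θ < s.re → riemannZeta s ≠ 0

/-- (b) -/
def UpperBound (Θ : ℝ) : Prop :=
  ∀ ε : ℝ, 0 < ε → ∃ C : ℝ, ∀ X H : ℝ, 1 ≤ H → H ≤ X → V X H ≤ C * H * X ^ (2 * Θ - 1 + ε)

/-- (c) -/
def SparseBound (Θ : ℝ) : Prop :=
  ∀ δ : ℝ, 0 < δ → δ < 1 → ∃ᶠ X : ℝ in atTop, ∃ H : ℝ, X ^ (1 - δ) ≤ H ∧ H ≤ X ^ (1 - δ / 2) ∧
    V X H ≤ H * X ^ (2 * Θ - 1 + δ)

/-- (d) -/
def SparseBoundL1 (Θ : ℝ) : Prop :=
  ∀ δ : ℝ, 0 < δ → δ < 1 → ∃ᶠ X : ℝ in atTop, ∃ H : ℝ, X ^ (1 - δ) ≤ H ∧ H ≤ X ^ (1 - δ / 2) ∧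
    A X H ^ 2 ≤ H * X ^ (2 * Θ - 1 + δ)

lemma Zs_free {Θ : ℝ} (h : ZeroFree Θ) : ∀ s : ℂ, Θ < s.re → Pool.Agent.H295R2.Zs s ≠ 0 := by
  intro s hs
  by_cases h1 : s = 1
  · exact Pool.Agent.H295R2.Zs_ne_zero_of_one_le (by rw [h1]; simp)
  · rw [← Pool.Agent.H295R2.Zs_eq h1]
    exact mul_ne_zero (sub_ne_zero.mpr h1) (h s hs)

lemma upper_of_free {Θ : ℝ} (h1 : 1 / 2 ≤ Θ) (h2 : Θ ≤ 1) (h : ZeroFree Θ) : UpperBound Θ := by
  intro ε hε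
  obtain ⟨C, _, hC⟩ := Pool.Agent.J6H10.GC.VV_upper (by linarith) h2 (Zs_free h) hε
  exact ⟨C, hC⟩

lemma sparse_of_upper {Θ : ℝ} (h : UpperBound Θ) : SparseBound Θ := by
  intro δ hδ hδ1
  obtain ⟨C, hC⟩ := h (δ / 2) (by linarith)
  have h1 : ∀ᶠ X : ℝ in atTop, C ≤ X ^ (δ / 2) :=
    (tendsto_rpow_atTop (by linarith)).eventually_ge_atTop _
  refine Eventually.frequently ?_
  filter_upwards [h1, eventually_ge_atTop (1 : ℝ)] with X g1 g2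
  have hX : 0 < X := by linarith
  have hH1 : 1 ≤ X ^ (1 - δ) := Real.one_le_rpow g2 (by linarith)
  have hH2 : X ^ (1 - δ) ≤ X := by
    calc X ^ (1 - δ) ≤ X ^ (1 : ℝ) := Real.rpow_le_rpow_of_exponent_le g2 (by linarith)
      _ = X := Real.rpow_one X
  refine ⟨X ^ (1 - δ), le_rfl, Real.rpow_le_rpow_of_exponent_le g2 (by linarith), ?_⟩
  refine (hC X _ hH1 hH2).trans ?_
  have h3 : X ^ (2 * Θ - 1 + δ) = X ^ (δ / 2) * X ^ (2 * Θ - 1 + δ / 2) := by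
    rw [← Real.rpow_add hX]
    congr 1
    ring
  rw [h3]
  calc C * X ^ (1 - δ) * X ^ (2 * Θ - 1 + δ / 2)
      ≤ X ^ (δ / 2) * X ^ (1 - δ) * X ^ (2 * Θ - 1 + δ / 2) := by gcongr
    _ = _ := by ring

lemma A_sq_le {X H : ℝ} (hX : 0 < X) (hH : 0 < H) : A X H ^ 2 ≤ V X H :=
  Pool.Agent.J6H10.GC.AA_sq_le hX hH

lemma l1_of_sparse {Θ : ℝ} (h : SparseBound Θ) : SparseBoundL1 Θ := by
  intro δ hδ hδ1
  refine ((h δ hδ hδ1).and_eventually (eventually_gt_atTop 0)).mono ?_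
  rintro X ⟨⟨H, h1, h2, h3⟩, hX⟩
  have hH : 0 < H := lt_of_lt_of_le (by positivity) h1
  exact ⟨H, h1, h2, (A_sq_le hX hH).trans h3⟩

lemma free_of_l1 {Θ : ℝ} (h1 : 1 / 2 ≤ Θ) (h : SparseBoundL1 Θ) : ZeroFree Θ := by
  intro s hs hz
  have hs1 : s.re < 1 := by
    by_contra hc
    exact riemannZeta_ne_zero_of_one_le_re (not_lt.1 hc) hz
  set θ : ℝ := (Θ + s.re) / 2 with hθ
  have a1 : Θ < θ := by rw [hθ]; linarith
  have a2 : θ < s.re := by rw [hθ]; linarith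
  set δ : ℝ := (θ - Θ) / 2 with hδ
  have hδ0 : 0 < δ := by rw [hδ]; linarith
  have hδ1 : δ < 1 := by rw [hδ]; linarith
  have h3 := Pool.Agent.J6H10.GC.AA_lower (θ := θ) (ε := δ / 2) (by linarith) (by linarith) (by linarith)
    ⟨s, hz, a2⟩
  obtain ⟨X, ⟨H, b1, b2, b3⟩, b4, b5⟩ := ((h δ hδ0 hδ1).and_eventually
    (h3.and (eventually_gt_atTop 1))).exists
  have hX : 0 < X := by linarith
  have hH : 0 < H := lt_of_lt_of_le (by positivity) b1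
  have b6 := b4 H hH b2
  have b7 : (H * X ^ (θ - 1)) ^ 2 ≤ H * X ^ (2 * Θ - 1 + δ) :=
    (pow_le_pow_left₀ (by positivity) b6 2).trans b3
  have b8 : H * X ^ (2 * θ - 2) ≤ X ^ (2 * Θ - 1 + δ) := by
    have e : (H * X ^ (θ - 1)) ^ 2 = H * (H * X ^ (2 * θ - 2)) := by
      have e1 : X ^ (2 * θ - 2) = (X ^ (θ - 1)) ^ 2 := by
        rw [← Real.rpow_natCast (X ^ (θ - 1)) 2, ← Real.rpow_mul hX.le]
        congr 1
        push_cast
        ring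
      rw [e1]
      ring
    rw [e] at b7
    exact le_of_mul_le_mul_left b7 hH
  have b9 : X ^ (1 - δ + (2 * θ - 2)) ≤ X ^ (2 * Θ - 1 + δ) := by
    rw [Real.rpow_add hX]
    exact (mul_le_mul_of_nonneg_right b1 (by positivity)).trans b8
  have b10 := (Real.rpow_le_rpow_left_iff b5).1 b9
  have : θ - Θ = 2 * δ := by rw [hδ]; ring
  linarith

theorem tfae (Θ : ℝ) (h1 : 1 / 2 ≤ Θ) (h2 : Θ ≤ 1) :
    [ZeroFree Θ, UpperBound Θ, SparseBound Θ, SparseBoundL1 Θ].TFAE := by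
  tfae_have 1 → 2 := upper_of_free h1 h2
  tfae_have 2 → 3 := sparse_of_upper
  tfae_have 3 → 4 := l1_of_sparse
  tfae_have 4 → 1 := free_of_l1 h1
  tfae_finish

theorem rh_free : RiemannHypothesis ↔ ZeroFree (1 / 2) := Pool.Agent.W190.rh_free

theorem result :
    (∀ θ δ : ℝ, 1 / 2 ≤ θ → 0 < δ → δ < 1 → (∃ s : ℂ, riemannZeta s = 0 ∧ θ < s.re) →
      ∀ᶠ X : ℝ in atTop, ∀ H : ℝ, 0 < H → H ≤ X ^ (1 - δ) →
        H * X ^ (θ - 1) ≤ A X H ∧ H ^ 2 * X ^ (2 * θ - 2) ≤ V X H) ∧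
    (∀ Θ : ℝ, 1 / 2 ≤ Θ → Θ ≤ 1 →
      [ZeroFree Θ, UpperBound Θ, SparseBound Θ, SparseBoundL1 Θ].TFAE) ∧
    (RiemannHypothesis ↔
      ∀ ε : ℝ, 0 < ε → ∃ C : ℝ, ∀ X H : ℝ, 1 ≤ H → H ≤ X → V X H ≤ C * H * X ^ ε) ∧
    (RiemannHypothesis ↔
      ∀ δ : ℝ, 0 < δ → δ < 1 → ∃ᶠ X : ℝ in atTop, ∃ H : ℝ, X ^ (1 - δ) ≤ H ∧ H ≤ X ^ (1 - δ / 2) ∧
        A X H ^ 2 ≤ H * X ^ δ) ∧
    (∀ Θ : ℝ, 1 / 2 < Θ → IsLUB {σ : ℝ | ∃ s : ℂ, riemannZeta s = 0 ∧ s.re = σ} Θ →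
      ∀ δ : ℝ, 0 < δ → δ < 1 → ∀ᶠ X : ℝ in atTop, ∀ H : ℝ, X ^ (1 - δ) ≤ H → H ≤ X ^ (1 - δ / 2) →
        X ^ (2 * Θ - 3 * δ) ≤ V X H ∧ V X H ≤ X ^ (2 * Θ)) := by
  refine ⟨?_, tfae, ?_, ?_, ?_⟩
  · intro θ δ hθ hδ hδ1 hz
    filter_upwards [Pool.Agent.J6H10.GC.AA_lower hθ hδ hδ1 hz,
      Pool.Agent.J6H10.GC.VV_lower hθ hδ hδ1 hz] with X h1 h2 H hH hHX
    exact ⟨h1 H hH hHX, h2 H hH hHX⟩
  · have e : UpperBound (1 / 2) ↔
        ∀ ε : ℝ, 0 < ε → ∃ C : ℝ, ∀ X H : ℝ, 1 ≤ H → H ≤ X → V X H ≤ C * H * X ^ ε := by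
      unfold UpperBound
      norm_num
    rw [← e, rh_free]
    exact (tfae (1 / 2) le_rfl (by norm_num)).out 0 1
  · have e : SparseBoundL1 (1 / 2) ↔
        ∀ δ : ℝ, 0 < δ → δ < 1 → ∃ᶠ X : ℝ in atTop, ∃ H : ℝ, X ^ (1 - δ) ≤ H ∧ H ≤ X ^ (1 - δ / 2) ∧
          A X H ^ 2 ≤ H * X ^ δ := by
      unfold SparseBoundL1
      norm_num
    rw [← e, rh_free]
    exact (tfae (1 / 2) le_rfl (by norm_num)).out 0 3
  · intro Θ hΘ hlub δ hδ hδ1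
    have hΘ1 : Θ ≤ 1 := hlub.2 (by
      rintro σ ⟨s, hs, rfl⟩
      by_contra hc
      exact riemannZeta_ne_zero_of_one_le_re (not_le.1 hc).le hs)
    have hfree : ZeroFree Θ := fun s hs hz => absurd (hlub.1 ⟨s, hz, rfl⟩) (not_le.2 hs)
    -- the lower bound
    set θ : ℝ := max (1 / 2) (Θ - δ / 2) with hθ
    have hθ1 : 1 / 2 ≤ θ := le_max_left _ _
    have hθ2 : Θ - δ / 2 ≤ θ := le_max_right _ _
    have hθ3 : θ < Θ := max_lt hΘ (by linarith)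
    have hz : ∃ s : ℂ, riemannZeta s = 0 ∧ θ < s.re := by
      obtain ⟨σ, ⟨s, hs, rfl⟩, h1⟩ := (lt_isLUB_iff hlub).1 hθ3
      exact ⟨s, hs, h1⟩
    have hlow := Pool.Agent.J6H10.GC.VV_lower (ε := δ / 2) hθ1 (by linarith) (by linarith) hz
    obtain ⟨C, hC⟩ := upper_of_free hΘ.le hΘ1 hfree (δ / 4) (by linarith)
    have h1 : ∀ᶠ X : ℝ in atTop, C ≤ X ^ (δ / 4) :=
      (tendsto_rpow_atTop (by linarith)).eventually_ge_atTop _
    filter_upwards [hlow, h1, eventually_ge_atTop (1 : ℝ)] with X g1 g2 g3 H hH1 hH2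
    have hX : 0 < X := by linarith
    have hH0 : 0 < H := lt_of_lt_of_le (by positivity) hH1
    have hH3 : 1 ≤ H := (Real.one_le_rpow g3 (by linarith)).trans hH1
    have hH4 : H ≤ X := by
      refine hH2.trans ?_
      calc X ^ (1 - δ / 2) ≤ X ^ (1 : ℝ) := Real.rpow_le_rpow_of_exponent_le g3 (by linarith)
        _ = X := Real.rpow_one X
    constructor
    · refine le_trans ?_ (g1 H hH0 hH2)
      calc X ^ (2 * Θ - 3 * δ) ≤ X ^ ((1 - δ) + (1 - δ) + (2 * θ - 2)) :=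
            Real.rpow_le_rpow_of_exponent_le g3 (by linarith)
        _ = X ^ (1 - δ) * X ^ (1 - δ) * X ^ (2 * θ - 2) := by
            rw [Real.rpow_add hX, Real.rpow_add hX]
        _ ≤ H * H * X ^ (2 * θ - 2) := by gcongr
        _ = H ^ 2 * X ^ (2 * θ - 2) := by ring
    · refine (hC X H hH3 hH4).trans ?_
      calc C * H * X ^ (2 * Θ - 1 + δ / 4) ≤ X ^ (δ / 4) * X ^ (1 - δ / 2) * X ^ (2 * Θ - 1 + δ / 4) := by
            gcongr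
        _ = X ^ (2 * Θ) := by
            rw [← Real.rpow_add hX, ← Real.rpow_add hX]
            congr 1
            ring

end Pool.Agent.Results.MP_0575cc_nt.SparseScalesRH
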